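import Pool.Agent.R209.CMSize
import Pool.Agent.R209.CMPar

/-!
# No elementary bound for the modular recurrence constants of CMSOL counting sequences

For every Kalmar elementary function `f` there is a sentence `φ` of monadic second order
logic (without counting quantifiers) over one binary relation symbol whose counting sequence
satisfies no linear recurrence modulo `2` with constants `r, p ≤ f (max |φ| 2)`; the length
`|φ|` may be replaced by any number `ℓ ≤ K |φ|`.
-/

namespace Pool.Agent.Results.MP_b66a5a_lc.NoElementaryBound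

open R209.CM

theorem result (f : ℕ → ℕ) (hf : Elementary f) (K : ℕ) :
    ∃ φ : Fm ⟨0, 0, 1⟩, φ.Sentence ∧ φ.Plain ∧
      ∀ ℓ ≤ K * φ.len, ∀ r p : ℕ, r ≤ f (max ℓ 2) → p ≤ f (max ℓ 2) →
        ¬ Recur (S φ) 2 r p := by
  obtain ⟨j, hj⟩ := hf.bound
  obtain ⟨h, hh⟩ := exists_tower j (K * 100000 + 4)
  refine ⟨ph h, sentence_ph h, plain_ph h, ?_⟩
  intro ℓ hℓ r p hr hp hrec
  have h4 : 1 ≤ 4 ^ h := Nat.one_le_pow _ _ (by norm_num)
  have hlen := len_ph h
  have hF : f (max ℓ 2) < tw h := by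
    refine lt_of_le_of_lt (le_trans (hj _) (E_mono j ?_)) hh
    have h1 : ℓ ≤ K * (100000 * 4 ^ h) := le_trans hℓ (Nat.mul_le_mul_left K hlen)
    have h2 : max ℓ 2 ≤ K * (100000 * 4 ^ h) + 2 := by omega
    have h3 : (K * 100000 + 4) * 4 ^ h = K * (100000 * 4 ^ h) + 4 * 4 ^ h := by ring
    omega
  have hT := tw_le_T h
  have hN : T h < 2 ^ (T h - 1) * 2 := by
    have h1 : 0 < T h := T_pos h
    have h2 : 2 ^ (T h - 1) * 2 = 2 ^ T h := by
      rw [← pow_succ]
      congr 1
      omega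
    rw [h2]
    exact Nat.lt_two_pow_self
  have hN2 : 2 * T h ≤ 2 ^ T h := by
    have h1 : 0 < T h := T_pos h
    have h2 : 2 ^ T h = 2 ^ (T h - 1) * 2 := by
      rw [← pow_succ]
      congr 1
      omega
    have h3 := Nat.lt_two_pow_self (n := T h - 1)
    omega
  obtain ⟨α, hα⟩ := hrec
  have h5 := hα (2 ^ T h - p - 1) (by omega)
  have e1 : 2 ^ T h - p - 1 + p + 1 = 2 ^ T h := by omega
  rw [e1] at h5
  have e2 : ∑ i ∈ Finset.range (p + 1), α i * ((S (ph h) (2 ^ T h - p - 1 + i) : ℕ) : ℤ) = 0 := by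
    apply Finset.sum_eq_zero
    intro i hi
    have hi' := Finset.mem_range.mp hi
    rw [S_zero h _ (by omega) (by omega)]
    simp
  rw [e2] at h5
  have h6 := S_odd h
  have h7 : ((S (ph h) (2 ^ T h) : ℕ) : ℤ) % 2 = 0 % 2 := h5
  omega

end Pool.Agent.Results.MP_b66a5a_lc.NoElementaryBound
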